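import Mathlib
import Pool.Agent.N751.VD.Main
import Pool.Agent.N391.VD.Up

/-!
# Vojta's height inequality for almost all algebraic points of bounded degree

Let `C` be a curve, or any variety of positive dimension, over a number field `K`, embedded in a
projective space of dimension `N`, and `Spec A` the part of `C` with `x_0 ≠ 0`: here `A` is any
domain of finite type over `K` which is not a finite field extension of `K`, with any generators
`y_1, …, y_N`, the affine coordinates. Let `h(x)` be the absolute logarithmic height of the point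
`(1 : y_1(x) : … : y_N(x))` and `d(x)` the normalised logarithmic discriminant of the residue field of
the closed point `x`.

We prove that there is a constant `c > 0` such that for all `r ≥ r₀` there is ONE set `E` of closed
points which has density zero among ALL closed points of degree at most `r` over `K` (and among those
in any nonempty open subset `f ≠ 0` of `Spec A`), and such that for all closed points of degree at
most `r` not in `E`, all `e` and all divisors `D` cut out by a hypersurface `Q = 0` of degree `e` not
containing `x`, and all finite sets of places of the residue field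
`∑ λ_{D, w}(x) + (c r / (log r) ^ 2 - e) h(x) ≤ d(x) + O(1)`
with a constant depending on `Q` only. More precisely there are at least `exp(c r ^ 2 U)` closed
points of degree at most `r` and of height at most `U`, and the proportion of those in `E` is at most
`exp(-c r ^ 2 U)`, for all large `U`.

Every effective divisor `D` on `C` is contained in a hypersurface section of degree `e` for some
`e = e(D)` and every canonical divisor satisfies `h_{K_C} ≤ G h + O(1)` for some `G`. So this is the
inequality `m_S(D, x) + h_{K_C}(x) ≤ d(x) + O(1)` of the question (without the term `ε h_A(x)`) for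
100 percent of all the points `x` with `[K(x) : K] ≤ r`, for all `r` with
`e(D) + G ≤ c r / (log r) ^ 2`, all `S`, and all these `D` at the same time.

Proof. By Noether normalisation and a count of the numbers of degree `r'` there are many closed points
of degree at most `r`. On the other hand there are few number fields of bounded degree and bounded
discriminant (Couveignes, Lemke Oliver-Thorne: `X ^ {O((log r) ^ 2)}`), and few points of bounded
height in each of them. Finally the proximity function is bounded by the inequality of Liouville.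
-/

set_option autoImplicit false

namespace Pool.Agent.Results.MP_6f1c57_nt.AlmostAllClosedPoints

open NumberField Module

/-- The absolute logarithmic height of the point `(1 : y_1(x) : … : y_N(x))`, where the closed point
`x` is given by a homomorphism of `A` onto the residue field `M`. -/
noncomputable def height {K A : Type} [Field K] [CommRing A] [Algebra K A] {N : ℕ} (y : Fin N → A)
    {M : Type} [Field M] [NumberField M] [Algebra K M] (x : A →ₐ[K] M) : ℝ :=
  Height.logHeight (Fin.cons 1 fun i => x (y i) : Fin (N + 1) → M) / finrank ℚ M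

/-- The (absolute) logarithmic discriminant `d(M) = log |disc M| / [M : ℚ]`. -/
noncomputable def logDisc (M : Type) [Field M] [NumberField M] : ℝ :=
  Real.log |(discr M : ℝ)| / finrank ℚ M

/-- The closed points of `Spec A` (as maximal ideals) of degree at most `r` over `K` and of height at
most `U` at which `f` does not vanish. -/
def points (K : Type) {A : Type} [Field K] [CommRing A] [Algebra K A] {N : ℕ} (y : Fin N → A)
    (f : A) (r : ℕ) (U : ℝ) : Set (Ideal A) :=
  {p | f ∉ p ∧ ∃ (M : Type) (_ : Field M) (_ : NumberField M) (_ : Algebra K M) (x : A →ₐ[K] M),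
    Function.Surjective x ∧ RingHom.ker x = p ∧ finrank K M ≤ r ∧ height y x ≤ U}

/-- The proximity function of the hypersurface `Q = 0` of degree `e` at the point `x`, for the finite
sets `T₀`, `T` of infinite and finite places of the residue field `M`: the sum of the local heights
`log (max(1, |y_1(x)|_w, …, |y_N(x)|_w) ^ e / |Q(x)|_w)` over these places, with multiplicities,
divided by `[M : ℚ]`. -/
noncomputable def proximity {K A : Type} [Field K] [CommRing A] [Algebra K A] {N : ℕ}
    (y : Fin N → A) (e : ℕ) (Q : MvPolynomial (Fin N) K) {M : Type} [Field M] [NumberField M]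
    [Algebra K M] (x : A →ₐ[K] M) (T₀ : Finset (InfinitePlace M)) (T : Finset (FinitePlace M)) : ℝ :=
  (∑ w ∈ T₀, (w.mult : ℝ) *
      Real.log ((⨆ i, w ((Fin.cons 1 fun i => x (y i) : Fin (N + 1) → M) i)) ^ e /
        w (MvPolynomial.aeval (fun i => x (y i)) Q)) +
    ∑ w ∈ T, Real.log ((⨆ i, w ((Fin.cons 1 fun i => x (y i) : Fin (N + 1) → M) i)) ^ e /
        w (MvPolynomial.aeval (fun i => x (y i)) Q))) / finrank ℚ M

theorem points_eq (K : Type) {A : Type} [Field K] [CommRing A] [Algebra K A] {N : ℕ}
    (y : Fin N → A) (f : A) (r : ℕ) (U : ℝ) :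
    points K y f r U = {p : Ideal A | Pool.Agent.N751.VD.Pt K y r U p ∧ f ∉ p} := by
  ext p
  constructor
  · rintro ⟨hf, M, _, _, _, x, h1, h2, h3, h4⟩
    have hM : (0 : ℝ) < finrank ℚ M := by exact_mod_cast finrank_pos (R := ℚ) (M := M)
    exact ⟨⟨M, _, _, _, x, h1, h2, h3, (div_le_iff₀ hM).1 h4⟩, hf⟩
  · rintro ⟨⟨M, _, _, _, x, h1, h2, h3, h4⟩, hf⟩
    have hM : (0 : ℝ) < finrank ℚ M := by exact_mod_cast finrank_pos (R := ℚ) (M := M)
    exact ⟨hf, M, _, _, _, x, h1, h2, h3, (div_le_iff₀ hM).2 h4⟩

/-- **Theorem.** Let `A` be a domain of finite type over the number field `K`, not finite over `K`.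
There is `c > 0` such that for all `r ≥ r₀` there is ONE set `E` of closed points, of density zero
among all the closed points of degree at most `r`, such that the inequality
`∑_{w ∈ T} λ_{Q, w}(x) + (c r / (log r) ^ 2 - e) h(x) ≤ d(x) + O(1)` holds for all closed points `x`
of degree at most `r` not in `E`, all `e`, all hypersurfaces `Q = 0` of degree `e` and all finite sets
`T` of places of the residue field. -/
theorem result (K A : Type) [Field K] [NumberField K] [CommRing A] [IsDomain A] [Algebra K A]
    (N : ℕ) (y : Fin N → A) (hy : Algebra.adjoin K (Set.range y) = ⊤) (hA : ¬ Module.Finite K A) :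
    ∃ c : ℝ, 0 < c ∧ ∃ r₀ : ℕ, 2 ≤ r₀ ∧ ∀ r : ℕ, r₀ ≤ r → ∃ E : Set (Ideal A),
      -- the density of `E`, in every nonempty open subset
      (∀ f : A, f ≠ 0 → ∃ U₀ : ℝ, ∀ U : ℝ, U₀ ≤ U → (points K y f r U).Finite ∧
        Real.exp (c * r ^ 2 * U) ≤ (points K y f r U).ncard ∧
        ((E ∩ points K y f r U).ncard : ℝ) ≤
          Real.exp (-(c * r ^ 2 * U)) * (points K y f r U).ncard) ∧
      -- the inequality outside `E`
      ∀ (e : ℕ) (Q : MvPolynomial (Fin N) K), Q.totalDegree ≤ e → ∃ C : ℝ,
        ∀ (M : Type) [Field M] [NumberField M] [Algebra K M] (x : A →ₐ[K] M),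
          Function.Surjective x → finrank K M ≤ r → RingHom.ker x ∉ E →
          MvPolynomial.aeval (fun i => x (y i)) Q ≠ 0 →
          ∀ (T₀ : Finset (InfinitePlace M)) (T : Finset (FinitePlace M)),
            proximity y e Q x T₀ T + (c * r / (Real.log r) ^ 2 - e) * height y x ≤
              logDisc M + C := by
  classical
  obtain ⟨c, hc, r₀, hr₀, h⟩ := Pool.Agent.N751.VD.main Pool.Agent.N391.VD.Up.t K A N y hy hA
  refine ⟨c, hc, r₀, hr₀, fun r hr => ⟨{p : Ideal A |
    Pool.Agent.N751.VD.Small K y (c * r / (Real.log r) ^ 2) p}, ?_, ?_⟩⟩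
  · intro f hf
    obtain ⟨U₀, hU₀⟩ := h r hr f hf
    refine ⟨U₀, fun U hU => ?_⟩
    obtain ⟨h1, h2, h3⟩ := hU₀ U hU
    rw [points_eq]
    refine ⟨h1, h2, le_trans ?_ h3⟩
    have hsub : ({p : Ideal A | Pool.Agent.N751.VD.Small K y (c * r / (Real.log r) ^ 2) p} ∩
        {p : Ideal A | Pool.Agent.N751.VD.Pt K y r U p ∧ f ∉ p}) ⊆
        {p : Ideal A | Pool.Agent.N751.VD.Pt K y r U p ∧
          Pool.Agent.N751.VD.Small K y (c * r / (Real.log r) ^ 2) p} :=
      fun p hp => ⟨hp.2.1, hp.1⟩
    exact_mod_cast Set.ncard_le_ncard hsub
      ((Pool.Agent.N751.VD.pt_finite y hy r U).subset fun p hp => hp.1)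
  · intro e Q hQ
    obtain ⟨C, hC⟩ := Pool.Agent.N234.VD.t K N e Q hQ
    refine ⟨C, fun M _ _ _ x hx hxr hxE hxQ T₀ T => ?_⟩
    have hM : (0 : ℝ) < finrank ℚ M := by exact_mod_cast finrank_pos (R := ℚ) (M := M)
    have h1 := hC M (fun i => x (y i)) hxQ T₀ T
    have h2 : c * r / (Real.log r) ^ 2 *
        Height.logHeight (Fin.cons 1 fun i => x (y i) : Fin (N + 1) → M) ≤
          Real.log |(discr M : ℝ)| := by
      by_contra hcon
      exact hxE ⟨M, inferInstance, inferInstance, inferInstance, x, hx, rfl, not_le.1 hcon⟩
    have h3 : proximity y e Q x T₀ T = Pool.Agent.N751.VD.prox T₀ T e (fun i => x (y i))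
        (MvPolynomial.aeval (fun i => x (y i)) Q) / finrank ℚ M := rfl
    rw [h3]
    unfold height logDisc
    rw [← mul_div_assoc, ← add_div, ← sub_nonneg]
    have h4 : Real.log |(discr M : ℝ)| / finrank ℚ M + C -
        (Pool.Agent.N751.VD.prox T₀ T e (fun i => x (y i))
          (MvPolynomial.aeval (fun i => x (y i)) Q) + (c * r / (Real.log r) ^ 2 - e) *
            Height.logHeight (Fin.cons 1 fun i => x (y i) : Fin (N + 1) → M)) / finrank ℚ M =
        (Real.log |(discr M : ℝ)| + C * finrank ℚ M -
        (Pool.Agent.N751.VD.prox T₀ T e (fun i => x (y i))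
          (MvPolynomial.aeval (fun i => x (y i)) Q) + (c * r / (Real.log r) ^ 2 - e) *
            Height.logHeight (Fin.cons 1 fun i => x (y i) : Fin (N + 1) → M))) / finrank ℚ M := by
      field_simp
    rw [h4]
    refine div_nonneg ?_ hM.le
    linarith

end Pool.Agent.Results.MP_6f1c57_nt.AlmostAllClosedPoints
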