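import Pool.Agent.N733.TG.K
import Pool.Agent.Results.MP_6f1c57_nt.ProximityWindows

/-!
# The height inequality with proximity function near functions of the values of multiplicative functions

For a curve which is finite over the `t`-line, divisors above `q ≥ 3` rational points, `r ≥ 2` and `0 ≤ κ ≤ q`, let `f` be a
positive multiplicative function of at most polynomial growth such that `f p ≤ M p` for the large primes `p`, with different
values at different large primes; for example Euler's function or the sum of the divisors. Let `α > 0`, `d ≥ 1`, `σ ≥ 0` with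
`d e / (r + 1) + σ < 1`, where `e < r + 1` is explicit. For all `m ≤ N` but `N / (log N)^U` the inequality
`m_S(D, P) + (degree - κ) h(x) ≤ d(L) + ∑_{p ∈ S} log p - C₀` holds for ALL algebraic numbers `x` of degree `r` with
`|H(x) ^ (r (r + 1)) - α f(m) ^ d| ≤ f(m) ^ σ`, ALL points `P` of the curve above `x`, over any number field `L`, and ALL
finite sets `S` of primes. More generally `G (f m)` takes the place of `α f(m) ^ d`, where `G` is any function with steps
bounded below by a positive constant and growth at most `v ^ d`. The values of `f` are in general taken with very large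
multiplicities, and so this does not follow from the size of the exceptional set.
-/

set_option autoImplicit false

namespace Pool.Agent.Results.MP_6f1c57_nt.MultiplicativeValues

open Polynomial IsDedekindDomain NumberField
open ProximityAllCurves (height coord proximity logDisc degree alpha exponent exceptional)
open ProximityWindows (Val Bad)
open Pool.Agent.N733.TG (LM Expanding lm_totient lm_sigma keep_windows expanding_pow)

/-- the inequality of the question, for all points `P = φ` above `x` (a root of `g`), with the constant `-C₀` -/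
def Holds {A : Type} [CommRing A] [Algebra ℚ A] [Algebra ℚ[X] A] {q : ℕ} (u : Fin q → ℕ)
    (y : ∀ j, Fin (u j + 1) → A) (κ C₀ : ℝ) (g : ℤ[X]) (x : ℂ) : Prop :=
  ∀ (L : IntermediateField ℚ ℂ) [NumberField L] (φ : A →+* L) (S : Finset ℕ),
    (φ (coord A) : ℂ) = x → (∀ p ∈ S, p.Prime) →
    proximity S u y L φ + (degree u y - κ) * height g ≤ logDisc L + ∑ p ∈ S, Real.log p - C₀

/-- **Theorem.** For `η > 0` there is `c ≥ 1` such that the following holds. Let `A` be a Dedekind domain, finite over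
`ℚ[t]` and containing it, let `r ≥ 2`, let `a_1, …, a_q` be `q ≥ 3` distinct rational numbers, let
`y_{j 0} = t - a_j, y_{j 1}, …` be elements of the radical of the ideal `(t - a_j)` and `κ ≤ q`. (For `κ ≥ 0` the exponent
`e = exponent (alpha r c η) r q κ` is smaller than `r + 1`.) Let `f` be multiplicative and positive, of at most polynomial
growth, with `f p ≤ M p` at the large primes, and injective there, let `G` have steps `≥ a > 0` and growth at most `v ^ d`, and
let `d max e 0 / (r + 1) + σ < 1`. For all `C₀`, `U` and all large `N`, for all `m ≤ N` but `N / (log N) ^ U`, the inequality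
holds for ALL algebraic numbers `x` of degree `r` (with irreducible integral polynomial `g` and height
`H = exp (height g)`) with `|H ^ (r (r + 1)) - G (f m)| ≤ f(m) ^ σ`, ALL points `P = φ` of the curve above `x` over any number
field `L` and ALL finite sets `S` of primes. Euler's function and the sum of the divisors are examples of such functions `f`,
and `α v ^ d` with `α > 0`, `d ≥ 1` is an example of `G`. -/
theorem result :
    (∀ η : ℝ, 0 < η → ∃ c : ℝ, 1 ≤ c ∧
      ∀ (A : Type) [CommRing A] [IsDedekindDomain A] [Algebra ℚ A] [Algebra ℚ[X] A]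
        [IsScalarTower ℚ ℚ[X] A] [Module.Finite ℚ[X] A] [FaithfulSMul ℚ[X] A]
        (r q : ℕ), 2 ≤ r → 3 ≤ q → ∀ a : Fin q → ℚ, Function.Injective a →
      ∀ (u : Fin q → ℕ) (y : ∀ j, Fin (u j + 1) → A),
      (∀ j, y j 0 = coord A - algebraMap ℚ[X] A (C (a j))) →
      (∀ j i, y j i ∈ (Ideal.span {coord A - algebraMap ℚ[X] A (C (a j))}).radical) →
      ∀ κ : ℝ, κ ≤ q →
      (0 ≤ κ → exponent (alpha r c η) r q κ < r + 1) ∧
      ∀ f : ℕ → ℕ, LM f → ∀ (G : ℕ → ℝ) (d : ℝ), Expanding G d → ∀ σ : ℝ, 0 ≤ σ →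
        d * (max (exponent (alpha r c η) r q κ) 0 / (r + 1)) + σ < 1 →
        ∀ (C₀ : ℝ) (U : ℕ), ∃ N₀ : ℕ, ∀ N : ℕ, N₀ ≤ N →
          ({m : ℕ | 1 ≤ m ∧ m ≤ N ∧ ¬ ∀ (x : ℂ) (g : ℤ[X]),
            Irreducible g → g.natDegree = r → aeval x g = 0 →
            |Real.exp (height g) ^ (r * (r + 1)) - G (f m)| ≤ (f m : ℝ) ^ σ → Holds u y κ C₀ g x}.ncard : ℝ) ≤
          N / Real.log N ^ U) ∧
    (LM Nat.totient ∧ LM (fun m => ∑ d ∈ m.divisors, d)) ∧
    ∀ α d : ℝ, 0 < α → 1 ≤ d → Expanding (fun v => α * (v : ℝ) ^ d) d := by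
  refine ⟨fun η hη => ?_, ⟨lm_totient, lm_sigma⟩, fun α d hα hd => expanding_pow hα hd⟩
  obtain ⟨c, hc, hmain⟩ := ProximityAllCurves.result η hη
  refine ⟨c, hc, fun A _ _ _ _ _ _ _ r q hr hq a ha u y hy0 hy κ hκ =>
    ⟨fun h0 => ProximityWindows.expo_lt hr hq hc h0, fun f hf G d hG σ hσ h1 C₀ U => ?_⟩⟩
  obtain ⟨N₀, hN₀⟩ := keep_windows (Val u y r κ (-C₀)) (fun z => z) hf hG
    (s := max (exponent (alpha r c η) r q κ) 0 / (r + 1)) (κ := σ)
    (div_nonneg (le_max_right _ _) (by positivity)) hσ h1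
    (fun ε hε => ProximityWindows.count u y hr κ (-C₀) _
      (fun δ hδ => hmain A r q hr hq a ha u y hy0 hy κ (-C₀) δ hκ hδ) ε hε) U
  refine ⟨N₀, fun N hN => le_trans ?_ (hN₀ N hN)⟩
  have hfin : {m : ℕ | 1 ≤ m ∧ m ≤ N ∧ ∃ t ∈ Val u y r κ (-C₀), |t - G (f m)| ≤ (f m : ℝ) ^ σ}.Finite := by
    apply (Set.finite_Icc 1 N).subset
    intro m hm
    exact ⟨hm.1, hm.2.1⟩
  have h2 : {m : ℕ | 1 ≤ m ∧ m ≤ N ∧ ¬ ∀ (x : ℂ) (g : ℤ[X]),
            Irreducible g → g.natDegree = r → aeval x g = 0 →
            |Real.exp (height g) ^ (r * (r + 1)) - G (f m)| ≤ (f m : ℝ) ^ σ → Holds u y κ C₀ g x} ⊆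
      {m : ℕ | 1 ≤ m ∧ m ≤ N ∧ ∃ t ∈ Val u y r κ (-C₀), |t - G (f m)| ≤ (f m : ℝ) ^ σ} := by
    rintro m ⟨h2, h3, h4⟩
    unfold Holds at h4
    push Not at h4
    obtain ⟨x, g, hg, hgr, hgx, hw, L, hL, φ, S, hφ, hS, hlt⟩ := h4
    refine ⟨h2, h3, _, ⟨g, x, ⟨hg, hgr, hgx, L, hL, φ, S, hφ, hS, ?_⟩, rfl⟩, hw⟩
    linarith
  exact_mod_cast Set.ncard_le_ncard h2 hfin

end Pool.Agent.Results.MP_6f1c57_nt.MultiplicativeValues
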