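import Pool.Agent.N830.VR.Fin

/-!
# The height inequality for quadratic points of the line, with the discriminant of the order

`k` is a number field, `D` a sum of `q` distinct points `a_i` of `ℙ¹` over a finite extension `K`,
rational over `k`. A point `x` of `ℙ¹` of degree 2 over `k` has the minimal form
`P = X² + b X Y + c Y²`. Here `h(x) = h(P) / 2 + O(1)`, the proximity `m_S(D, x)` is half the sum
over `v ∈ S` of the local heights `log (|P|_v ^ q / |∏ P(a_i)|_v)`, and half the sum over `v ∉ S` of
the local heights `log (|P|_v ^ 2 / |disc P|_v)` is the logarithmic discriminant (prime to `S`) of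
the order of `x`.

For every `ε > 0` the inequality `m_S(D, x) - 2 h(x) ≤ d_S(x) + ε h(x) + C(S)` holds for every finite
set `S` of places and all `x` of degree 2 over `k`, off finitely many curves of `Sym² ℙ¹` which have
no nonconstant rational parametrization over `k`.
-/

set_option autoImplicit false

namespace Pool.Agent.Results.MP_6f1c57_nt.QuadraticPointsAllPlaces

open NumberField

/-- The places of a number field: the archimedean ones and the primes. -/
abbrev Place (k : Type) [Field k] [NumberField k] : Type :=
  InfinitePlace k ⊕ IsDedekindDomain.HeightOneSpectrum (𝓞 k)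

/-- The absolute value of a place: the usual one for an archimedean place, and `(N p) ^ (-ord_p x)`
for a prime `p`. -/
noncomputable def Place.value {k : Type} [Field k] [NumberField k] (v : Place k) (x : k) : ℝ :=
  match v with
  | Sum.inl w => w x
  | Sum.inr p => FinitePlace.mk p x

/-- The multiplicity: `1` for a real place, `2` for a complex place, `1` for a prime. -/
noncomputable def Place.mult {k : Type} [Field k] [NumberField k] (v : Place k) : ℝ :=
  match v with
  | Sum.inl w => w.mult
  | Sum.inr _ => 1

/-- The value `P(a)` of a binary quadratic form. -/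
def formValue {F : Type} [Field F] (P : Fin 3 → F) (a : Fin 2 → F) : F :=
  P 0 * a 0 ^ 2 + P 1 * a 0 * a 1 + P 2 * a 1 ^ 2

/-- The discriminant of a binary quadratic form. -/
def disc {F : Type} [Field F] (P : Fin 3 → F) : F := P 1 ^ 2 - 4 * P 0 * P 2

/-- `D = ∑ a_i` is a sum of `q` distinct points of `ℙ¹` over `K`, rational over `k`; the value of a
form `P` over `k` on `D` is `R P = ∏ P(a_i)`. -/
structure IsDivisor {k K : Type} [Field k] [Field K] [Algebra k K] {q : ℕ} (a : Fin q → Fin 2 → K)
    (R : (Fin 3 → k) → k) : Prop where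
  point : ∀ i, a i ≠ 0
  distinct : ∀ i j, i ≠ j → a i 0 * a j 1 ≠ a i 1 * a j 0
  value : ∀ P : Fin 3 → k,
    algebraMap k K (R P) = ∏ i, formValue (fun j => algebraMap k K (P j)) (a i)

section

variable {k : Type} [Field k] [NumberField k]

/-- The height `h(x)` (relative to `k`, not divided by `[k : ℚ]`) of the roots of the form `P`. -/
noncomputable def height (P : Fin 3 → k) : ℝ := Height.logHeight P / 2

/-- The proximity `m_S(D, x)`: here `r` is the value of the form `P` of `x` on `D` and `q` is the
degree of `D`. -/
noncomputable def proximity (S : Finset (Place k)) (q : ℕ) (r : k) (P : Fin 3 → k) : ℝ :=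
  (∑ v ∈ S, v.mult * Real.log ((⨆ j, v.value (P j)) ^ q / v.value r)) / 2

/-- The logarithmic discriminant outside `S` of the order of `x`. -/
noncomputable def logDisc (S : Finset (Place k)) (P : Fin 3 → k) : ℝ :=
  (∑ᶠ (v : Place k) (_ : v ∉ S),
    v.mult * Real.log ((⨆ j, v.value (P j)) ^ 2 / v.value (disc P))) / 2

/-- The form `X² + b X Y + c Y²` of a point of degree 2 with minimal polynomial `X² + b X + c`. -/
noncomputable def minForm (x : AlgebraicClosure k) : Fin 3 → k :=
  ![1, (minpoly k x).coeff 1, (minpoly k x).coeff 0]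

/-- The curve `Ψ(b, c) = 0` has no nonconstant rational parametrization over `k`. -/
def NoRationalCurve (Ψ : MvPolynomial (Fin 2) k) : Prop :=
  ∀ z : Fin 2 → RatFunc k, MvPolynomial.aeval z Ψ = 0 → ∀ i, ∃ c : k, z i = RatFunc.C c

end

/-- **The height inequality for quadratic points of the line with the discriminant of the order.**
Let `D = ∑ a_i` be a sum of `q` distinct points of `ℙ¹` (over a number field `K ⊇ k`), rational over
`k`, and `ε > 0`. There is a nonzero polynomial `Ψ(b, c)` over `k`, such that the curve `Ψ = 0` has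
no nonconstant rational parametrization over `k`, and such that for every finite set `S` of places
there is `C` with `m_S(D, x) - 2 h(x) ≤ d_S(x) + ε h(x) + C` for all `x` of degree 2 over `k`, not in
`D`, with minimal polynomial `X² + b X + c`, `Ψ(b, c) ≠ 0`. Here `h_K(x) = -2 h(x)` for the canonical
divisor of `ℙ¹`, and `d_S(x)` is the logarithmic discriminant, outside `S`, of the order of `x`. -/
theorem result (k K : Type) [Field k] [NumberField k] [Field K] [NumberField K] [Algebra k K]
    {q : ℕ} (a : Fin q → Fin 2 → K) (R : (Fin 3 → k) → k) (hD : IsDivisor a R) (ε : ℝ)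
    (hε : 0 < ε) : ∃ Ψ : MvPolynomial (Fin 2) k, Ψ ≠ 0 ∧ NoRationalCurve Ψ ∧
      ∀ S : Finset (Place k), ∃ C : ℝ, ∀ x : AlgebraicClosure k, (minpoly k x).natDegree = 2 →
        R (minForm x) ≠ 0 →
        MvPolynomial.eval ![(minpoly k x).coeff 1, (minpoly k x).coeff 0] Ψ ≠ 0 →
        proximity S q (R (minForm x)) (minForm x) - 2 * height (minForm x) ≤
          logDisc S (minForm x) + ε * height (minForm x) + C := by
  classical
  obtain ⟨ψ, hψ, hψn, hψS⟩ := Pool.Agent.N830.VR.fin a hD.point hD.distinct R hD.value ε hε
  refine ⟨ψ, hψ, hψn, fun S => ?_⟩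
  obtain ⟨C, hC⟩ := hψS S
  refine ⟨C / 2, fun x hx hRx hψx => ?_⟩
  have hns := Pool.Agent.N830.VR.nonsq x hx
  set b := (minpoly k x).coeff 1 with hb
  set c := (minpoly k x).coeff 0 with hc
  have hform : minForm x = ![1, b, c] := rfl
  rw [hform] at hRx ⊢
  have h1 := hC ![b, c] hψx hRx (by
    rw [Pool.Agent.N830.VR.di_aff]
    exact hns)
  simp only [Matrix.cons_val_zero, Matrix.cons_val_one] at h1
  set P : Fin 3 → k := ![1, b, c] with hP
  have hP0 : P ≠ 0 := by
    intro h
    have := congrFun h 0
    simp [hP] at this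
  have hdP : disc P ≠ 0 := by
    intro h
    apply hns
    have : b ^ 2 - 4 * c = 0 := by
      simpa [disc, hP] using h
    rw [this]
    exact IsSquare.zero
  have hval : ∀ (v : Place k) (c : k), v.value c = Pool.Agent.W180.OP.av v c := by
    intro v c
    rcases v with v | v <;> rfl
  have hmul : ∀ v : Place k, v.mult = Pool.Agent.W180.OP.wt v := by
    intro v
    rcases v with v | v <;> rfl
  have hlog : ∀ (v : Place k) (q : ℕ) (r : k), r ≠ 0 →
      v.mult * Real.log ((⨆ j, v.value (P j)) ^ q / v.value r) =
      Pool.Agent.W180.OP.wt v * (q * Real.log (Pool.Agent.W180.OP.nrm (Pool.Agent.W180.OP.av v) P) -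
        Real.log (Pool.Agent.W180.OP.av v r)) := by
    intro v q r hr
    have e1 : (⨆ j, v.value (P j)) = Pool.Agent.W180.OP.nrm (Pool.Agent.W180.OP.av v) P := by
      unfold Pool.Agent.W180.OP.nrm
      simp only [hval]
    rw [hmul, e1, hval, Real.log_div
      (pow_pos (Pool.Agent.W180.OP.nrm_pos (Pool.Agent.W180.OP.av v) hP0) _).ne'
      ((Pool.Agent.W180.OP.av v).pos_iff.2 hr).ne', Real.log_pow]
  have hD' : logDisc S P =
      Height.logHeight P - (∑ v ∈ S, Pool.Agent.W180.OP.wt v *
        (2 * Real.log (Pool.Agent.W180.OP.nrm (Pool.Agent.W180.OP.av v) P) -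
          Real.log (Pool.Agent.W180.OP.av v (disc P)))) / 2 := by
    unfold logDisc
    have h3 := Pool.Agent.N830.VQ.disc_sum S P hP0 (disc P) hdP
    have h4 : ∑ᶠ (v : Place k) (_ : v ∉ S),
        v.mult * Real.log ((⨆ j, v.value (P j)) ^ 2 / v.value (disc P)) =
        ∑ᶠ (v : Place k) (_ : v ∉ S), Pool.Agent.W180.OP.wt v *
        (2 * Real.log (Pool.Agent.W180.OP.nrm (Pool.Agent.W180.OP.av v) P) -
          Real.log (Pool.Agent.W180.OP.av v (disc P))) := by
      refine finsum_congr fun v => finsum_congr fun _ => ?_
      rw [hlog v 2 (disc P) hdP]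
      push_cast
      rfl
    rw [h4, h3]
    ring
  rw [hD']
  unfold proximity height
  simp only [hlog _ q (R P) hRx]
  unfold Pool.Agent.N830.VR.Psi at h1
  have hdd : Pool.Agent.N830.VR.di P = disc P := rfl
  simp only [mul_add, Finset.sum_add_distrib, hdd] at h1
  linarith

end Pool.Agent.Results.MP_6f1c57_nt.QuadraticPointsAllPlaces
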