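import Pool.Agent.N671.DA.Win
import Pool.Agent.Results.MP_6f1c57_nt.ProximityWindows

/-!
# The height inequality with proximity function near functions of the denominators of good approximations

Let `θ_1, …, θ_m` be real numbers. We consider the natural numbers `v` with `‖v θ_j - β_j‖ ≤ c' v^(-τ)` for all `j`, `‖x‖` the
distance to the nearest integer; for `β = 0`, `c' = 1`, `τ = 1 / m` these include the denominators of all best simultaneous
approximations (the denominators of the convergents for `m = 1`). They form a very sparse sequence, with gaps growing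
exponentially for almost all `θ` if `τ = 1 / m`. Let `G` be a function with steps bounded below by a positive constant and growth
at most `v^d`, for example `a v^d`. For a curve which is finite over the `t`-line, divisors above `q ≥ 3` rational points,
`r ≥ 2` and `0 ≤ κ ≤ q`, for all `θ` in `ℝ^m` outside a set of Hausdorff dimension at most
`(m + d e / (r + 1) + σ) / (1 + τ)`, where `e < r + 1` is explicit, for all constants `C₀` and `c'` and all large such `v` the
inequality `m_S(D, P) + (degree - κ) h(x) ≤ d(L) + ∑_{p ∈ S} log p - C₀` holds for ALL algebraic numbers `x` of degree `r` with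
`|H(x) ^ (r (r + 1)) - G v| ≤ v ^ σ`, ALL points `P` of the curve above `x`, over any number field `L`, and ALL finite sets `S`
of primes. For `τ = 1 / m` the bound is less than `m` if `d e / (r + 1) + σ < 1`.

Proof. The `v` such that some exceptional height is near `G v` form a set with `O(X^(d e / (r + 1) + σ + ε))` elements up to `X`,
by the starting theorem `ProximityAllCurves` of this problem; and the `θ` with `‖v θ_j - β_j‖ ≤ c' v^(-τ)` for all `j` and
infinitely many `v` of such a set are covered by few small cubes.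
-/

set_option autoImplicit false

namespace Pool.Agent.Results.MP_6f1c57_nt.SimultaneousApproximations

open Polynomial IsDedekindDomain NumberField
open ProximityAllCurves (height coord proximity logDisc degree alpha exponent exceptional)
open ProximityWindows (Val Bad)
open Pool.Agent.N671.DA (Solves Expanding expanding_pow approx_windows)

/-- the inequality of the question, for all points `P = φ` above `x` (a root of `g`), with the constant `-C₀` -/
def Holds {A : Type} [CommRing A] [Algebra ℚ A] [Algebra ℚ[X] A] {q : ℕ} (u : Fin q → ℕ)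
    (y : ∀ j, Fin (u j + 1) → A) (κ C₀ : ℝ) (g : ℤ[X]) (x : ℂ) : Prop :=
  ∀ (L : IntermediateField ℚ ℂ) [NumberField L] (φ : A →+* L) (S : Finset ℕ),
    (φ (coord A) : ℂ) = x → (∀ p ∈ S, p.Prime) →
    proximity S u y L φ + (degree u y - κ) * height g ≤ logDisc L + ∑ p ∈ S, Real.log p - C₀

/-- **Theorem.** For `η > 0` there is `c ≥ 1` such that the following holds. Let `A` be a Dedekind domain, finite over
`ℚ[t]` and containing it, let `r ≥ 2`, let `a_1, …, a_q` be `q ≥ 3` distinct rational numbers, let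
`y_{j 0} = t - a_j, y_{j 1}, …` be elements of the radical of the ideal `(t - a_j)` and `κ ≤ q`. (For `κ ≥ 0` the exponent
`e = exponent (alpha r c η) r q κ` is smaller than `r + 1`.) Let `G` have steps `≥ a > 0` and growth at most `v ^ d`, let
`0 ≤ σ ≤ 1`, `β` in `ℝ ^ m` and `τ > 0`. For all `θ` in `ℝ ^ m` outside ONE set of Hausdorff dimension at most
`(m + d max e 0 / (r + 1) + σ) / (1 + τ)`, all `C₀` and all `c'`, for all large `v` with `‖v θ_j - β_j‖ ≤ c' v ^ (-τ)` for all
`j`, the inequality holds for ALL algebraic numbers `x` of degree `r` (with irreducible integral polynomial `g` and height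
`H = exp (height g)`) with `|H ^ (r (r + 1)) - G v| ≤ v ^ σ`, ALL points `P = φ` of the curve above `x` over any number field
`L` and ALL finite sets `S` of primes. The functions `α v ^ d` with `α > 0`, `d ≥ 1` are examples of `G`. -/
theorem result :
    (∀ η : ℝ, 0 < η → ∃ c : ℝ, 1 ≤ c ∧
      ∀ (A : Type) [CommRing A] [IsDedekindDomain A] [Algebra ℚ A] [Algebra ℚ[X] A]
        [IsScalarTower ℚ ℚ[X] A] [Module.Finite ℚ[X] A] [FaithfulSMul ℚ[X] A]
        (r q : ℕ), 2 ≤ r → 3 ≤ q → ∀ a : Fin q → ℚ, Function.Injective a →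
      ∀ (u : Fin q → ℕ) (y : ∀ j, Fin (u j + 1) → A),
      (∀ j, y j 0 = coord A - algebraMap ℚ[X] A (C (a j))) →
      (∀ j i, y j i ∈ (Ideal.span {coord A - algebraMap ℚ[X] A (C (a j))}).radical) →
      ∀ κ : ℝ, κ ≤ q →
      (0 ≤ κ → exponent (alpha r c η) r q κ < r + 1) ∧
      ∀ (G : ℕ → ℝ) (d : ℝ), Expanding G d → ∀ σ : ℝ, 0 ≤ σ → σ ≤ 1 →
        ∀ (m : ℕ) (β : Fin m → ℝ) (τ : ℝ), 0 < τ →
        ∃ E : Set (Fin m → ℝ),
          dimH E ≤ ENNReal.ofReal
            ((m + (d * (max (exponent (alpha r c η) r q κ) 0 / (r + 1)) + σ)) / (1 + τ)) ∧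
          ∀ θ, θ ∉ E → ∀ C₀ c' : ℝ, ∃ N₀ : ℕ, ∀ v : ℕ, N₀ ≤ v →
            Solves θ β v (c' * (v : ℝ) ^ (-τ)) → ∀ (x : ℂ) (g : ℤ[X]),
            Irreducible g → g.natDegree = r → aeval x g = 0 →
            |Real.exp (height g) ^ (r * (r + 1)) - G v| ≤ (v : ℝ) ^ σ → Holds u y κ C₀ g x) ∧
    ∀ α d : ℝ, 0 < α → 1 ≤ d → Expanding (fun v => α * (v : ℝ) ^ d) d := by
  refine ⟨fun η hη => ?_, fun α d hα hd => expanding_pow hα hd⟩
  obtain ⟨c, hc, hmain⟩ := ProximityAllCurves.result η hη
  refine ⟨c, hc, fun A _ _ _ _ _ _ _ r q hr hq a ha u y hy0 hy κ hκ =>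
    ⟨fun h0 => ProximityWindows.expo_lt hr hq hc h0, fun G d hG σ hσ hσ1 m β τ hτ => ?_⟩⟩
  have key : ∀ k : ℕ, ∃ E : Set (Fin m → ℝ),
      dimH E ≤ ENNReal.ofReal
        ((m + (d * (max (exponent (alpha r c η) r q κ) 0 / (r + 1)) + σ)) / (1 + τ)) ∧
      ∀ θ, θ ∉ E → ∀ c' : ℝ, ∃ N₀ : ℕ, ∀ v : ℕ, N₀ ≤ v → Solves θ β v (c' * (v : ℝ) ^ (-τ)) →
        ∀ t ∈ Val u y r κ (-(k : ℝ)), ¬ |t - G v| ≤ (v : ℝ) ^ σ := fun k =>
    approx_windows (Val u y r κ (-(k : ℝ))) (fun z => z) hG
      (s := max (exponent (alpha r c η) r q κ) 0 / (r + 1)) (κ := σ)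
      (div_nonneg (le_max_right _ _) (by positivity)) hσ hσ1
      (fun ε hε => ProximityWindows.count u y hr κ (-(k : ℝ)) _
        (fun δ hδ => hmain A r q hr hq a ha u y hy0 hy κ (-(k : ℝ)) δ hκ hδ) ε hε) β hτ
  choose E hE hE2 using key
  refine ⟨⋃ k, E k, ?_, fun θ hθ C₀ c' => ?_⟩
  · rw [dimH_iUnion]
    exact iSup_le hE
  · obtain ⟨k, hk⟩ := exists_nat_ge C₀
    have hθk : θ ∉ E k := fun h => hθ (Set.mem_iUnion.2 ⟨k, h⟩)
    obtain ⟨N₀, hN₀⟩ := hE2 k θ hθk c'
    refine ⟨N₀, fun v hv hs x g hg hgr hgx hw => ?_⟩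
    by_contra h4
    unfold Holds at h4
    push Not at h4
    obtain ⟨L, hL, φ, S, hφ, hS, hlt⟩ := h4
    refine hN₀ v hv hs _ ⟨g, x, ⟨hg, hgr, hgx, L, hL, φ, S, hφ, hS, ?_⟩, rfl⟩ hw
    linarith

end Pool.Agent.Results.MP_6f1c57_nt.SimultaneousApproximations
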